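import Mathlib
import Pool.Agent.H15.LW8C

/-!
# The Lang-Waldschmidt inequality fails for pairwise coprime bases, even without the factor `max |b_j|`

For `x = 4 ^ k` the eight integers `x + 15, x - 15, 2 x + 15, 2 x - 15, 8 x² - 1125, 4 x² - 135, 4 x² - 825, 2`
are pairwise coprime, and the product of their powers with the exponents
`-20593188 x - 308224840, 20593188 x - 308224840, 41186376 x + 409003595, -41186376 x + 409003595, 70467584,`
`-144375000, 31788045, -234637536 k - 804236032` differs from `1` by about `c / x ^ 16`, while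
`H = O(k x ^ 14)`.
-/

set_option autoImplicit false

open Finset Filter

namespace Pool.Agent.Results.MP_e07dae_nt.CoprimeEight

/-- `P(a, b) = a_1 ^ b_1 ⋯ a_n ^ b_n` -/
noncomputable def P {n : ℕ} (a b : Fin n → ℤ) : ℝ := ∏ i, ((a i : ℝ) ^ (b i))

/-- `H(a, b) = |b_1 ⋯ b_n a_1 ⋯ a_n|` -/
noncomputable def H {n : ℕ} (a b : Fin n → ℤ) : ℝ :=
  (∏ i, |((b i : ℤ) : ℝ)|) * (∏ i, |((a i : ℤ) : ℝ)|)

/-- `max_j |b_j|` -/
noncomputable def maxB {n : ℕ} (b : Fin n → ℤ) : ℝ :=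
  ((Finset.univ.sup fun i => (b i).natAbs : ℕ) : ℝ)

theorem ev (K c δ : ℝ) (j : ℕ) (hδ : 0 < δ) (hc : 0 < c) (hK : 0 < K) :
    ∀ᶠ x : ℝ in atTop, K * Real.log x ^ j < c * x ^ δ := by
  have h := (isLittleO_log_rpow_rpow_atTop (j : ℝ) hδ).def (show 0 < c / (2 * K) by positivity)
  filter_upwards [h, eventually_gt_atTop (1 : ℝ)] with x hx hx1
  have hl : 0 < Real.log x := Real.log_pos hx1
  have hxp : 0 < x ^ δ := Real.rpow_pos_of_pos (by linarith) _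
  rw [Real.rpow_natCast, Real.norm_of_nonneg (by positivity), Real.norm_of_nonneg hxp.le] at hx
  calc K * Real.log x ^ j ≤ K * (c / (2 * K) * x ^ δ) := mul_le_mul_of_nonneg_left hx hK.le
    _ = c / 2 * x ^ δ := by field_simp
    _ < c * x ^ δ := by nlinarith

open Pool.Agent.H15.LW8 (lam_est)

open Pool.Agent.H15.LW8C

theorem maxB_ge (k : ℕ) : 10 ^ 7 * (4 * (4 : ℝ) ^ k) ≤ maxB (bC k) := by
  have h : (bC k 2).natAbs ≤ (Finset.univ.sup fun i => (bC k i).natAbs : ℕ) :=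
    Finset.le_sup (f := fun i => (bC k i).natAbs) (Finset.mem_univ _)
  have h2 : ((bC k 2).natAbs : ℝ) ≤ maxB (bC k) := by
    unfold maxB
    exact_mod_cast h
  refine le_trans ?_ h2
  have e : bC k 2 = 41186376 * 4 ^ k + 409003595 := rfl
  rw [e, Nat.cast_natAbs, abs_of_pos (by positivity)]
  push_cast
  have : (0 : ℝ) < 4 ^ k := by positivity
  linarith

/-- The eight bases can be taken pairwise coprime and `> 1`:
(1) there are pairwise coprime integers `a_1, …, a_8 > 1` and nonzero `b_j` with `P ≠ 1`, `H` arbitrarily large,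
`|P - 1| ≤ 10 ^ 101 (log H / H) ^ (8 / 7)` and `(H / log H) ^ (1 / 14) ≤ max |b_j|`;
(2) for all `ε < 1 / 7` and `C > 0` there are such `P` with `|P - 1| < C / H ^ (1 + ε)`;
(3) for all `ε < 3 / 14` and `C > 0` there are such `P` with `|P - 1| < C max |b_j| / H ^ (1 + ε)`. -/
theorem result :
    (∀ M : ℝ, ∃ a b : Fin 8 → ℤ, (∀ i, 1 < a i) ∧ (∀ i j, i ≠ j → IsCoprime (a i) (a j)) ∧
      (∀ i, b i ≠ 0) ∧ M < H a b ∧ P a b ≠ 1 ∧
      |P a b - 1| ≤ 10 ^ 101 * (Real.log (H a b) / H a b) ^ (8 / 7 : ℝ) ∧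
      (H a b / Real.log (H a b)) ^ (1 / 14 : ℝ) ≤ maxB b) ∧
    (∀ ε C M : ℝ, ε < 1 / 7 → 0 < C → ∃ a b : Fin 8 → ℤ, (∀ i, 1 < a i) ∧
      (∀ i j, i ≠ j → IsCoprime (a i) (a j)) ∧ (∀ i, b i ≠ 0) ∧
      M < H a b ∧ P a b ≠ 1 ∧ |P a b - 1| < C / H a b ^ (1 + ε)) ∧
    (∀ ε C M : ℝ, ε < 3 / 14 → 0 < C → ∃ a b : Fin 8 → ℤ, (∀ i, 1 < a i) ∧
      (∀ i j, i ≠ j → IsCoprime (a i) (a j)) ∧ (∀ i, b i ≠ 0) ∧
      M < H a b ∧ P a b ≠ 1 ∧ |P a b - 1| < C * maxB b / H a b ^ (1 + ε)) := by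
  have main : ∀ M : ℝ, ∃ a b : Fin 8 → ℤ, (∀ i, 1 < a i) ∧
      (∀ i j, i ≠ j → IsCoprime (a i) (a j)) ∧ (∀ i, b i ≠ 0) ∧ M < H a b ∧
      P a b ≠ 1 ∧
      |P a b - 1| ≤ 10 ^ 101 * (Real.log (H a b) / H a b) ^ (8 / 7 : ℝ) ∧
      (H a b / Real.log (H a b)) ^ (1 / 14 : ℝ) ≤ maxB b := by
    intro M
    obtain ⟨N, hN⟩ := exists_nat_gt M
    obtain ⟨k, hk⟩ : ∃ k : ℕ, k = max N 20 := ⟨_, rfl⟩
    have hk20 : 20 ≤ k := by rw [hk]; exact le_max_right _ _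
    have hkN : N ≤ k := by rw [hk]; exact le_max_left _ _
    have h4k : (k : ℝ) < (4 : ℝ) ^ k := by exact_mod_cast Nat.lt_pow_self (by norm_num)
    have hkN' : (N : ℝ) ≤ (k : ℝ) := by exact_mod_cast hkN
    have hk0 : (20 : ℝ) ≤ k := by exact_mod_cast hk20
    obtain ⟨l1, l2⟩ := lam_est (2 * k + 2) (by omega)
    rw [← lamC_eq k hk20] at l1 l2
    obtain ⟨a1, a2⟩ := prod_aC k hk20
    obtain ⟨b1, b2⟩ := prod_bC k hk20
    have hmx := maxB_ge k
    rw [pw k] at l2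
    obtain ⟨X, hXd⟩ : ∃ X, X = H (aC k) (bC k) := ⟨_, rfl⟩
    have hX : X = (∏ i, |((bC k i : ℤ) : ℝ)|) * (∏ i, |((aC k i : ℤ) : ℝ)|) := hXd
    obtain ⟨x, hxd⟩ : ∃ x : ℝ, x = 4 ^ k := ⟨_, rfl⟩
    obtain ⟨T, hTd⟩ : ∃ T : ℝ, T = 4 * x := ⟨_, rfl⟩
    rw [← hxd] at a1 a2 b2 hmx l2 h4k
    rw [← hTd] at a2 b2 hmx l2
    have hx0 : 0 < x := by rw [hxd]; positivity
    have hT0 : 0 < T := by rw [hTd]; positivity
    have hXx : x ≤ X := by
      rw [hX]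
      calc x = 1 * x := by ring
        _ ≤ _ := mul_le_mul b1 a1 hx0.le (by linarith)
    have hX0 : 0 < X := hx0.trans_le hXx
    push_cast at b2
    have hXu : X ≤ 4 * 10 ^ 59 * (2 * k + 2) * T ^ 14 := by
      rw [hX]
      calc _ ≤ (2 * 10 ^ 59 * (2 * k + 2) * T ^ 4) * (2 * T ^ 10) :=
            mul_le_mul b2 a2 (by positivity) (by positivity)
        _ = _ := by ring
    have hlogX : (2 * k + 2 : ℝ) ≤ 2 * Real.log X := by
      have h1 : Real.log x ≤ Real.log X := Real.log_le_log hx0 hXx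
      have l4 : Real.log 4 = 2 * Real.log 2 := by
        rw [show (4 : ℝ) = 2 ^ 2 by norm_num, Real.log_pow]; norm_num
      rw [hxd, Real.log_pow, l4] at h1
      have h3 := Real.log_two_gt_d9
      nlinarith
    have hl0 : 0 < Real.log X := by linarith
    have hY : X / Real.log X ≤ 10 ^ 60 * T ^ 14 := by
      rw [div_le_iff₀ hl0]
      calc X ≤ 4 * 10 ^ 59 * (2 * k + 2) * T ^ 14 := hXu
        _ ≤ 4 * 10 ^ 59 * (2 * Real.log X) * T ^ 14 := by gcongr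
        _ = 8 * 10 ^ 59 * (Real.log X * T ^ 14) := by ring
        _ ≤ 10 ^ 60 * (Real.log X * T ^ 14) := by
          refine mul_le_mul_of_nonneg_right (by norm_num) (by positivity)
        _ = _ := by ring
    have hY0 : 0 < X / Real.log X := by positivity
    refine ⟨aC k, bC k, ?_, coprime_all k (by omega), bC_ne k hk20, ?_, l1, ?_, ?_⟩
    · intro i
      have := aC_ge k hk20 i
      omega
    · rw [← hXd]; linarith
    · rw [← hXd]
      refine l2.trans ?_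
      have h87 : (X / Real.log X) ^ (8 / 7 : ℝ) ≤ 10 ^ 69 * T ^ 16 := by
        have e8 : (X / Real.log X) ^ (8 / 7 : ℝ) = ((X / Real.log X) ^ 8) ^ ((7 : ℕ) : ℝ)⁻¹ := by
          rw [← Real.rpow_natCast (X / Real.log X) 8, ← Real.rpow_mul hY0.le]
          norm_num
        have e16 : 10 ^ 69 * T ^ 16 = ((10 ^ 69 * T ^ 16) ^ 7) ^ ((7 : ℕ) : ℝ)⁻¹ :=
          (Real.pow_rpow_inv_natCast (by positivity) (by norm_num)).symm
        rw [e8, e16]
        refine Real.rpow_le_rpow (by positivity) ?_ (by positivity)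
        have g1 : ∀ q : ℝ, (q ^ 60 * T ^ 14) ^ 8 = q ^ 480 * T ^ 112 := fun q => by ring
        have g2 : ∀ q : ℝ, q ^ 483 * T ^ 112 = (q ^ 69 * T ^ 16) ^ 7 := fun q => by ring
        have g3 : (10 : ℝ) ^ 480 ≤ 10 ^ 483 := pow_le_pow_right₀ (by norm_num) (by norm_num)
        calc (X / Real.log X) ^ 8 ≤ (10 ^ 60 * T ^ 14) ^ 8 := by gcongr
          _ = 10 ^ 480 * T ^ 112 := g1 10
          _ ≤ 10 ^ 483 * T ^ 112 := mul_le_mul_of_nonneg_right g3 (by positivity)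
          _ = (10 ^ 69 * T ^ 16) ^ 7 := g2 10
      have hp : 0 < (X / Real.log X) ^ (8 / 7 : ℝ) := Real.rpow_pos_of_pos hY0 _
      have einv : (Real.log X / X) ^ (8 / 7 : ℝ) = 1 / (X / Real.log X) ^ (8 / 7 : ℝ) := by
        rw [one_div, ← Real.inv_rpow hY0.le, inv_div]
      rw [einv, mul_one_div, div_le_div_iff₀ (by positivity) hp]
      calc 10 ^ 32 * (X / Real.log X) ^ (8 / 7 : ℝ) ≤ 10 ^ 32 * (10 ^ 69 * T ^ 16) := by gcongr
        _ = 10 ^ 101 * T ^ 16 := by ring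
    · rw [← hXd]
      refine le_trans ?_ hmx
      have e14 : 10 ^ 7 * T = ((10 ^ 7 * T) ^ 14) ^ (1 / 14 : ℝ) := by
        have := Real.pow_rpow_inv_natCast (x := 10 ^ 7 * T) (n := 14) (by positivity) (by norm_num)
        rw [show (1 / 14 : ℝ) = ((14 : ℕ) : ℝ)⁻¹ by norm_num]
        exact this.symm
      rw [e14]
      refine Real.rpow_le_rpow hY0.le ?_ (by norm_num)
      calc X / Real.log X ≤ 10 ^ 60 * T ^ 14 := hY
        _ ≤ 10 ^ 98 * T ^ 14 := by gcongr <;> norm_num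
        _ = (10 ^ 7 * T) ^ 14 := by ring
  refine ⟨main, fun ε C M hε hC => ?_, fun ε C M hε hC => ?_⟩
  · obtain ⟨T, hT⟩ := Filter.eventually_atTop.1
      (ev (10 ^ 101) (C) (1 / 7 - ε) 2 (by linarith) (by positivity) (by positivity))
    obtain ⟨a, b, h1, hc, h2, h3, h4, h5, h7⟩ := main (max (max M T) 3)
    have hX3 : 3 < H a b := lt_of_le_of_lt (le_max_right _ _) h3
    have hXH : M < H a b := lt_of_le_of_lt ((le_max_left _ _).trans (le_max_left _ _)) h3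
    have hXT : T < H a b := lt_of_le_of_lt ((le_max_right _ _).trans (le_max_left _ _)) h3
    obtain ⟨X, hXd⟩ : ∃ X, X = H a b := ⟨_, rfl⟩
    refine ⟨a, b, h1, hc, h2, hXH, h4, lt_of_le_of_lt h5 ?_⟩
    rw [← hXd] at hX3 hXT ⊢
    have hX0 : 0 < X := by linarith
    have hlog : 1 ≤ Real.log X := by
      rw [Real.le_log_iff_exp_le hX0]
      exact (Real.exp_one_lt_d9.le.trans (by norm_num)).trans hX3.le
    have h6 := hT _ hXT.le
    rw [Real.div_rpow (by linarith) hX0.le, lt_div_iff₀ (Real.rpow_pos_of_pos hX0 _)]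
    have e1 : X ^ (1 + ε) = X ^ (8 / 7 : ℝ) * X ^ (-(1 / 7 - ε)) := by
      rw [← Real.rpow_add hX0]; congr 1; ring
    have hp : 0 < X ^ (1 / 7 - ε) := Real.rpow_pos_of_pos hX0 _
    have hp8 : 0 < X ^ (8 / 7 : ℝ) := Real.rpow_pos_of_pos hX0 _
    rw [e1, Real.rpow_neg hX0.le]
    calc 10 ^ 101 * (Real.log X ^ (8 / 7 : ℝ) / X ^ (8 / 7 : ℝ)) *
          (X ^ (8 / 7 : ℝ) * (X ^ (1 / 7 - ε))⁻¹)
        = (10 ^ 101 * Real.log X ^ (8 / 7 : ℝ)) * (X ^ (1 / 7 - ε))⁻¹ := by field_simp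
      _ ≤ (10 ^ 101 * Real.log X ^ 2) * (X ^ (1 / 7 - ε))⁻¹ := by
        have : Real.log X ^ (8 / 7 : ℝ) ≤ Real.log X ^ (2 : ℝ) :=
          Real.rpow_le_rpow_of_exponent_le hlog (by norm_num)
        rw [Real.rpow_two] at this
        gcongr
      _ < (C * X ^ (1 / 7 - ε)) * (X ^ (1 / 7 - ε))⁻¹ := by gcongr
      _ = C := by field_simp
  · obtain ⟨T, hT⟩ := Filter.eventually_atTop.1
      (ev (10 ^ 101) (C) (3 / 14 - ε) 2 (by linarith) (by positivity) (by positivity))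
    obtain ⟨a, b, h1, hc, h2, h3, h4, h5, h7⟩ := main (max (max M T) 3)
    have hX3 : 3 < H a b := lt_of_le_of_lt (le_max_right _ _) h3
    have hXH : M < H a b := lt_of_le_of_lt ((le_max_left _ _).trans (le_max_left _ _)) h3
    have hXT : T < H a b := lt_of_le_of_lt ((le_max_right _ _).trans (le_max_left _ _)) h3
    obtain ⟨X, hXd⟩ : ∃ X, X = H a b := ⟨_, rfl⟩
    refine ⟨a, b, h1, hc, h2, hXH, h4, lt_of_le_of_lt h5 ?_⟩
    rw [← hXd] at hX3 hXT h7 ⊢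
    have hX0 : 0 < X := by linarith
    have hlog : 1 ≤ Real.log X := by
      rw [Real.le_log_iff_exp_le hX0]
      exact (Real.exp_one_lt_d9.le.trans (by norm_num)).trans hX3.le
    have hlog0 : 0 < Real.log X := by linarith
    have h6 := hT _ hXT.le
    have hY0 : 0 < X / Real.log X := by positivity
    have hB : 0 < (X / Real.log X) ^ (1 / 14 : ℝ) := Real.rpow_pos_of_pos hY0 _
    rw [lt_div_iff₀ (Real.rpow_pos_of_pos hX0 _)]
    refine lt_of_lt_of_le ?_ (mul_le_mul_of_nonneg_left h7 (by positivity))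
    rw [Real.div_rpow hlog0.le hX0.le, Real.div_rpow hX0.le hlog0.le]
    have e1 : X ^ (1 + ε) = X ^ (8 / 7 : ℝ) * (X ^ (1 / 14 : ℝ) * X ^ (-(3 / 14 - ε))) := by
      rw [← Real.rpow_add hX0, ← Real.rpow_add hX0]; congr 1; ring
    have hp : 0 < X ^ (3 / 14 - ε) := Real.rpow_pos_of_pos hX0 _
    have hp8 : 0 < X ^ (8 / 7 : ℝ) := Real.rpow_pos_of_pos hX0 _
    have hp14 : 0 < X ^ (1 / 14 : ℝ) := Real.rpow_pos_of_pos hX0 _
    have hl14 : 0 < Real.log X ^ (1 / 14 : ℝ) := Real.rpow_pos_of_pos hlog0 _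
    rw [e1, Real.rpow_neg hX0.le, ← mul_div_assoc (C), lt_div_iff₀ hl14]
    have hl2 : Real.log X ^ (8 / 7 : ℝ) * Real.log X ^ (1 / 14 : ℝ) ≤ Real.log X ^ 2 := by
      rw [← Real.rpow_add hlog0, ← Real.rpow_two]
      exact Real.rpow_le_rpow_of_exponent_le hlog (by norm_num)
    calc 10 ^ 101 * (Real.log X ^ (8 / 7 : ℝ) / X ^ (8 / 7 : ℝ)) *
          (X ^ (8 / 7 : ℝ) * (X ^ (1 / 14 : ℝ) * (X ^ (3 / 14 - ε))⁻¹)) * Real.log X ^ (1 / 14 : ℝ)
        = (10 ^ 101 * (Real.log X ^ (8 / 7 : ℝ) * Real.log X ^ (1 / 14 : ℝ))) *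
            (X ^ (3 / 14 - ε))⁻¹ * X ^ (1 / 14 : ℝ) := by field_simp
      _ ≤ (10 ^ 101 * Real.log X ^ 2) * (X ^ (3 / 14 - ε))⁻¹ * X ^ (1 / 14 : ℝ) := by gcongr
      _ < (C * X ^ (3 / 14 - ε)) * (X ^ (3 / 14 - ε))⁻¹ * X ^ (1 / 14 : ℝ) := by gcongr
      _ = C * X ^ (1 / 14 : ℝ) := by field_simp

end Pool.Agent.Results.MP_e07dae_nt.CoprimeEight
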